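import Mathlib

set_option autoImplicit false

namespace Pool.Agent.Results.MP_ca5fbf_co.Counter

/-- The largest size of a subset of `{1, …, m}` with no three-term arithmetic progression. -/
def r3 (m : ℕ) : ℕ := addRothNumber (Finset.Icc 1 m)

/-- `A(n) = n - r_3(⌈n/3⌉)`. -/
def A (n : ℕ) : ℤ := n - r3 ((n + 2) / 3)

/-- `B(n) = n - max_{k + l = ⌈n/2⌉} (r_3(⌈k/2⌉) + r_3(⌈l/2⌉))`, with `l = ⌈n/2⌉ - k`. -/
def B (n : ℕ) : ℤ := n - ((Finset.range ((n + 1) / 2 + 1)).sup
  fun k => r3 ((k + 1) / 2) + r3 (((n + 1) / 2 - k + 1) / 2) : ℕ)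

lemma r3_eq (m : ℕ) : r3 m = rothNumberNat m := by
  rw [r3, ← Finset.Ico_add_one_right_eq_Icc, addRothNumber_Ico]
  simp

lemma key (h : ∀ n, 0 < n → B n ≤ A n) (x : ℕ) : (r3 x : ℝ) ≤ 42 * (x : ℝ) ^ (3 / 4 : ℝ) := by
  induction x using Nat.strong_induction_on with
  | _ x ih =>
    rcases Nat.lt_or_ge x 42 with hx | hx
    · have h1 : (r3 x : ℝ) ≤ x := by rw [r3_eq]; exact_mod_cast rothNumberNat_le x
      rcases Nat.eq_zero_or_pos x with rfl | h0
      · simp [r3]
      · have h2 : (1 : ℝ) ≤ (x : ℝ) ^ (3 / 4 : ℝ) :=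
          Real.one_le_rpow (by exact_mod_cast h0) (by norm_num)
        have h3 : (x : ℝ) < 42 := by exact_mod_cast hx
        linarith
    · have h1 := h (3 * x) (by omega)
      obtain ⟨q, hq, h2⟩ := Finset.exists_mem_eq_sup (Finset.range ((3 * x + 1) / 2 + 1))
        ⟨0, by simp⟩ fun k => r3 ((k + 1) / 2) + r3 (((3 * x + 1) / 2 - k + 1) / 2)
      rw [Finset.mem_range] at hq
      rw [A, B, h2, show (3 * x + 2) / 3 = x by omega] at h1
      set a := (q + 1) / 2
      set b := ((3 * x + 1) / 2 - q + 1) / 2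
      have h3 : (r3 x : ℝ) ≤ r3 a + r3 b := by
        have : r3 x ≤ r3 a + r3 b := by omega
        exact_mod_cast this
      have h4 := ih a (by omega)
      have h5 := ih b (by omega)
      have h6 := (Real.concaveOn_rpow (p := 3 / 4) (by norm_num) (by norm_num)).2
        (Set.mem_Ici.2 (Nat.cast_nonneg a)) (Set.mem_Ici.2 (Nat.cast_nonneg b))
        (show (0 : ℝ) ≤ 1 / 2 by norm_num) (show (0 : ℝ) ≤ 1 / 2 by norm_num) (by norm_num)
      simp only [smul_eq_mul] at h6
      have h7 : (1 / 2 * (a : ℝ) + 1 / 2 * b) ≤ 39 / 100 * x := by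
        have : 50 * (a + b) ≤ 39 * x := by omega
        have : (50 * (a + b) : ℝ) ≤ 39 * x := by exact_mod_cast this
        linarith
      have h8 := Real.rpow_le_rpow (by positivity) h7 (show (0 : ℝ) ≤ 3 / 4 by norm_num)
      rw [Real.mul_rpow (by norm_num) (by positivity)] at h8
      have h9 : (39 / 100 : ℝ) ^ (3 / 4 : ℝ) ≤ 1 / 2 := by
        refine le_of_pow_le_pow_left₀ (n := 4) (by norm_num) (by norm_num) ?_
        rw [← Real.rpow_natCast, ← Real.rpow_mul (by norm_num)]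
        norm_num
      have h10 : (0 : ℝ) ≤ (x : ℝ) ^ (3 / 4 : ℝ) := by positivity
      nlinarith

/-- There is a positive integer `n` with `A(n) < B(n)`. -/
theorem result : ∃ n : ℕ, 0 < n ∧ A n < B n := by
  by_contra h
  push Not at h
  set N := ⌈Real.exp 900⌉₊
  have h1 : Real.exp 900 ≤ N := Nat.le_ceil _
  have h0 : (0 : ℝ) < N := (Real.exp_pos _).trans_le h1
  have h2 : 900 ≤ Real.log N := (Real.le_log_iff_exp_le h0).2 h1
  have h3 := key h N
  rw [r3_eq] at h3
  replace h3 := (Behrend.roth_lower_bound (N := N)).trans h3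
  have h4 := Real.log_le_log (by positivity) h3
  rw [Real.log_mul h0.ne' (by positivity), Real.log_exp, Real.log_mul (by norm_num) (by positivity),
    Real.log_rpow h0] at h4
  have h5 := Real.log_le_sub_one_of_pos (show (0 : ℝ) < 42 by norm_num)
  have h6 : 30 ≤ √(Real.log N) := Real.le_sqrt_of_sq_le (by linarith)
  have h7 := Real.sq_sqrt (show 0 ≤ Real.log N by linarith)
  nlinarith

end Pool.Agent.Results.MP_ca5fbf_co.Counter
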